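import Mathlib
import Pool.Agent.TH663.N13.Noise
import Pool.Agent.TH105.N13.RF

/-!
Row sums for N13 (helper663), for helper105's `Pc beta lam (L1 d E) (d/3) k v j`.
`rs` : `Pc j - Pc (j+1) = FF + O(9/8 + 4 η)`, `tip` bounds `Pc j`, `tip_zero` : `Pc j = 0`.
-/

namespace Pool.Agent.TH663.N13

open Finset
open Pool.Agent.TH105.N13 (Pc L1)

/-- number of `x` in row `y` whose translate by `-j*(-v,k)` is in the region, before truncation -/
noncomputable def hh (beta lam : ℝ) (v : ℤ) (k d E j : ℕ) (y : ℕ) : ℤ :=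
  L1 d E y - (⌊beta + lam * (y : ℝ)⌋ - ⌊beta + lam * ((y : ℝ) - (k : ℝ) * j)⌋) - v * j

theorem Pc_eq (beta lam : ℝ) (v : ℤ) (k d E j : ℕ) :
    Pc beta lam (L1 d E) (d / 3) k v j
      = ∑ y ∈ Icc (k * j) (d / 3), (hh beta lam v k d E j y).toNat := rfl

/-- the main term -/
noncomputable def FF (sig : ℝ) (k d E j : ℕ) : ℝ :=
  k * (3 * d - E) - 4 * k ^ 2 + 4 * k + sig * d / 3 - sig ^ 2 / 18 + sig / 2 - sig * k
    - j * (8 * k ^ 2 + 2 * k * sig + sig ^ 2 / 9)

theorem hh_real {beta lam sig : ℝ} {v : ℤ} {k : ℕ} (hlam : lam * k = sig - v) (d E j : ℕ) (y : ℕ) :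
    ((hh beta lam v k d E j y : ℤ) : ℝ) = L1 d E y - sig * j + Int.fract (beta + lam * y)
      - Int.fract (beta + lam * ((y : ℝ) - k * j)) := by
  have h1 := Int.floor_add_fract (beta + lam * (y : ℝ))
  have h2 := Int.floor_add_fract (beta + lam * ((y : ℝ) - k * j))
  unfold hh
  push_cast
  linear_combination h2 - h1 - (j : ℝ) * hlam

theorem hh_nonneg {beta lam sig : ℝ} {v : ℤ} {k : ℕ} (hlam : lam * k = sig - v) {d E j : ℕ} {y : ℕ}
    (h : sig * j ≤ L1 d E y) : 0 ≤ hh beta lam v k d E j y := by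
  have h1 := hh_real (beta := beta) hlam d E j y
  have h2 := Int.fract_nonneg (beta + lam * (y : ℝ))
  have h3 := Int.fract_lt_one (beta + lam * ((y : ℝ) - k * j))
  have h4 : (-1 : ℝ) < ((hh beta lam v k d E j y : ℤ) : ℝ) := by rw [h1]; linarith
  have h5 : (-1 : ℤ) < hh beta lam v k d E j y := by exact_mod_cast h4
  omega

theorem hh_nonpos {beta lam sig : ℝ} {v : ℤ} {k : ℕ} (hlam : lam * k = sig - v) {d E j : ℕ} {y : ℕ}
    (h : (L1 d E y : ℝ) ≤ sig * j) : hh beta lam v k d E j y ≤ 0 := by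
  have h1 := hh_real (beta := beta) hlam d E j y
  have h2 := Int.fract_lt_one (beta + lam * (y : ℝ))
  have h3 := Int.fract_nonneg (beta + lam * ((y : ℝ) - k * j))
  have h4 : ((hh beta lam v k d E j y : ℤ) : ℝ) < 1 := by rw [h1]; linarith
  have h5 : hh beta lam v k d E j y < 1 := by exact_mod_cast h4
  omega

theorem L1_lo {d E : ℕ} {y : ℕ} (hy : y ≤ E) :
    (L1 d E y : ℝ) = 3 * (d : ℝ) - E - 8 * y := by
  have h : L1 d E y = 3 * (d : ℤ) - E - 8 * y := by
    unfold L1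
    rw [max_eq_left (by omega)]
    ring
  rw [h]
  push_cast
  ring

theorem L1_hi {d E : ℕ} {y : ℕ} (hy : E ≤ y) :
    (L1 d E y : ℝ) = 3 * (d : ℝ) - 9 * y := by
  have h : L1 d E y = 3 * (d : ℤ) - 9 * y := by
    unfold L1
    rw [max_eq_right (by omega)]
    ring
  rw [h]
  push_cast
  ring

theorem L1_le {d E : ℕ} (y : ℕ) : (L1 d E y : ℝ) ≤ 3 * (d : ℝ) - 9 * y := by
  have h : L1 d E y ≤ 3 * (d : ℤ) - 9 * y := by
    unfold L1
    have := le_max_right ((E : ℤ) - y) 0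
    linarith
  exact_mod_cast h

/-- sum of an arithmetic progression -/
theorem sum_lin (a c : ℝ) (K : ℕ) :
    ∑ i ∈ range K, (a + c * (i : ℝ)) = K * a + c * (K * (K - 1) / 2) := by
  induction K with
  | zero => simp
  | succ K ih => rw [sum_range_succ, ih]; push_cast; ring

theorem sum_Ico_toNat {f : ℕ → ℤ} {a b : ℕ} (h : ∀ y, a ≤ y → y < b → 0 ≤ f y) :
    ((∑ y ∈ Ico a b, (f y).toNat : ℕ) : ℝ) = ∑ y ∈ Ico a b, (f y : ℝ) := by
  rw [Nat.cast_sum]
  apply sum_congr rfl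
  intro y hy
  rw [mem_Ico] at hy
  have h1 : (((f y).toNat : ℕ) : ℤ) = f y := Int.toNat_of_nonneg (h y hy.1 hy.2)
  exact_mod_cast h1

theorem sum_Ico_toNat_zero {f : ℕ → ℤ} {a b : ℕ} (h : ∀ y, a ≤ y → y < b → f y ≤ 0) :
    (∑ y ∈ Ico a b, (f y).toNat : ℕ) = 0 := by
  apply sum_eq_zero
  intro y hy
  rw [mem_Ico] at hy
  exact Int.toNat_of_nonpos (h y hy.1 hy.2)

theorem Icc_eq_Ico' (a b : ℕ) : Icc a b = Ico a (b + 1) := by
  ext y
  simp only [mem_Icc, mem_Ico]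
  omega

/-- truncation height and value of `Pc` -/
theorem Pc_trunc {beta lam sig : ℝ} {v : ℤ} {k d E j : ℕ} (hlam : lam * k = sig - v) {Z : ℕ}
    (hZ : Z ≤ d / 3) (hkj : k * j ≤ Z + 1) (hEZ : E ≤ Z)
    (hlo : ∀ y : ℕ, k * j ≤ y → y ≤ Z → sig * j ≤ L1 d E y)
    (hZ2 : 3 * (d : ℝ) - sig * j < 9 * (Z + 1)) :
    (Pc beta lam (L1 d E) (d / 3) k v j : ℝ)
      = ∑ y ∈ Ico (k * j) (Z + 1), ((hh beta lam v k d E j y : ℤ) : ℝ) := by
  rw [Pc_eq, Icc_eq_Ico', ← sum_Ico_consecutive _ hkj (show Z + 1 ≤ d / 3 + 1 by omega),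
    sum_Ico_toNat_zero (f := fun y : ℕ => hh beta lam v k d E j y) (a := Z + 1) (b := d / 3 + 1),
    add_zero]
  · exact sum_Ico_toNat (f := fun y : ℕ => hh beta lam v k d E j y)
      fun y h1 h2 => hh_nonneg hlam (hlo y h1 (by omega))
  · intro y hy _
    apply hh_nonpos hlam
    rw [L1_hi (by omega)]
    have h2 : (Z : ℝ) + 1 ≤ y := by exact_mod_cast hy
    linarith

theorem S1 {beta lam sig : ℝ} {v : ℤ} {k d E j : ℕ} (hlam : lam * k = sig - v)
    (hjE : k * (j + 1) ≤ E) :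
    ∑ y ∈ Ico (k * j) (k * (j + 1)), ((hh beta lam v k d E j y : ℤ) : ℝ)
      = k * (3 * (d : ℝ) - E - 8 * (k * j) - sig * j) + (-8) * (k * (k - 1) / 2)
        + ∑ i ∈ range k, Int.fract (beta + lam * ((k * j + i : ℕ) : ℝ))
        - ∑ i ∈ range k, Int.fract (beta + lam * (i : ℝ)) := by
  rw [sum_Ico_eq_sum_range, show k * (j + 1) - k * j = k by rw [Nat.mul_add]; omega]
  rw [← sum_lin, ← sum_add_distrib, ← sum_sub_distrib]
  apply sum_congr rfl
  intro i hi
  rw [mem_range] at hi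
  rw [hh_real hlam, L1_lo (show k * j + i ≤ E by
    have : k * (j + 1) = k * j + k := by ring
    omega)]
  have h1 : beta + lam * (((k * j + i : ℕ) : ℝ) - (k : ℝ) * j) = beta + lam * (i : ℝ) := by
    push_cast; ring
  rw [h1]
  push_cast
  ring

theorem S2 {beta lam sig : ℝ} {v : ℤ} {k d E j M : ℕ} (hlam : lam * k = sig - v) :
    ∑ y ∈ Ico (k * (j + 1)) (k * (j + 1) + M), (((hh beta lam v k d E j y : ℤ) : ℝ)
          - ((hh beta lam v k d E (j + 1) y : ℤ) : ℝ))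
      = M * sig + ∑ i ∈ range k, Int.fract (beta + lam * (i : ℝ))
        - ∑ i ∈ range k, Int.fract (beta + lam * ((M + i : ℕ) : ℝ)) := by
  rw [sum_Ico_eq_sum_range, Nat.add_sub_cancel_left]
  have htel : ∑ i ∈ range k, Int.fract (beta + lam * (i : ℝ))
        - ∑ i ∈ range k, Int.fract (beta + lam * ((M + i : ℕ) : ℝ))
      = ∑ i ∈ range M, Int.fract (beta + lam * (i : ℝ))
        - ∑ i ∈ range M, Int.fract (beta + lam * ((k + i : ℕ) : ℝ)) := by
    have h1 := Finset.sum_range_add (fun i : ℕ => Int.fract (beta + lam * (i : ℝ))) M k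
    have h2 := Finset.sum_range_add (fun i : ℕ => Int.fract (beta + lam * (i : ℝ))) k M
    rw [add_comm k M] at h2
    linarith
  have h3 : (M : ℝ) * sig = ∑ i ∈ range M, sig := by
    rw [sum_const, card_range, nsmul_eq_mul]
  rw [add_sub_assoc, htel, h3, ← sum_sub_distrib, ← sum_add_distrib]
  apply sum_congr rfl
  intro i _
  rw [hh_real hlam, hh_real hlam]
  have h1 : beta + lam * (((k * (j + 1) + i : ℕ) : ℝ) - (k : ℝ) * j)
      = beta + lam * ((k + i : ℕ) : ℝ) := by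
    push_cast; ring
  have h2 : beta + lam * (((k * (j + 1) + i : ℕ) : ℝ) - (k : ℝ) * ((j + 1 : ℕ) : ℝ))
      = beta + lam * (i : ℝ) := by
    push_cast; ring
  rw [h1, h2]
  push_cast
  ring

theorem S3 {beta lam sig : ℝ} {v : ℤ} {k d E j Y G W : ℕ} (hlam : lam * k = sig - v)
    (hEY : E ≤ Y) (hW : Y + 1 = k * j + W) :
    ∑ y ∈ Ico (Y + 1) (Y + 1 + G), ((hh beta lam v k d E j y : ℤ) : ℝ)
      = G * (3 * (d : ℝ) - 9 * (Y + 1) - sig * j) + (-9) * (G * (G - 1) / 2)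
        + ∑ i ∈ range G, Int.fract (beta + lam * ((Y + 1 + i : ℕ) : ℝ))
        - ∑ i ∈ range G, Int.fract (beta + lam * ((W + i : ℕ) : ℝ)) := by
  rw [sum_Ico_eq_sum_range, Nat.add_sub_cancel_left]
  rw [← sum_lin, ← sum_add_distrib, ← sum_sub_distrib]
  apply sum_congr rfl
  intro i _
  rw [hh_real hlam, L1_hi (show E ≤ Y + 1 + i by omega)]
  have h1 : beta + lam * (((Y + 1 + i : ℕ) : ℝ) - (k : ℝ) * j)
      = beta + lam * ((W + i : ℕ) : ℝ) := by
    have h5 : ((Y + 1 : ℕ) : ℝ) = ((k * j + W : ℕ) : ℝ) := by rw [hW]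
    push_cast at h5 ⊢
    rw [h5]
    ring
  rw [h1]
  push_cast
  ring

/-- **Row sums.**  `k*(j+1) ≤ E`, `9E + sig(j+1) ≤ 3d`, `lam*k = sig - v`, `0 ≤ sig`. -/
theorem rs {beta lam sig : ℝ} {v : ℤ} {k d E j N0 : ℕ} {η : ℝ}
    (hlam : lam * k = sig - v) (hsig : 0 ≤ sig) (hjE : k * (j + 1) ≤ E)
    (hE : 9 * (E : ℝ) + sig * (j + 1) ≤ 3 * d)
    (hN : k ≤ N0) (hN' : sig / 9 + 1 ≤ N0)
    (hnoise : ∀ (β : ℝ) (K : ℕ), K ≤ N0 →
      |∑ i ∈ range K, (Int.fract (β + lam * i) - 1 / 2)| ≤ η) :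
    |(Pc beta lam (L1 d E) (d / 3) k v j : ℝ) - Pc beta lam (L1 d E) (d / 3) k v (j + 1)
      - FF sig k d E j| ≤ 9 / 8 + 4 * η := by
  have hj0 : (0 : ℝ) ≤ j := Nat.cast_nonneg j
  have hE0 : (0 : ℝ) ≤ E := Nat.cast_nonneg E
  have hsj : 0 ≤ sig * j := mul_nonneg hsig hj0
  have hsj1 : sig * (j + 1) = sig * j + sig := by ring
  -- the two cut-off heights
  obtain ⟨Y, hY1, hY2⟩ : ∃ Y : ℕ, 9 * (Y : ℝ) ≤ 3 * d - sig * (j + 1) ∧
      3 * (d : ℝ) - sig * (j + 1) < 9 * (Y + 1) := by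
    refine ⟨⌊(3 * (d : ℝ) - sig * (j + 1)) / 9⌋₊, ?_, ?_⟩
    · have := Nat.floor_le (show 0 ≤ (3 * (d : ℝ) - sig * (j + 1)) / 9 by linarith)
      linarith
    · have := Nat.lt_floor_add_one ((3 * (d : ℝ) - sig * (j + 1)) / 9)
      linarith
  obtain ⟨Z, hZ1, hZ2⟩ : ∃ Z : ℕ, 9 * (Z : ℝ) ≤ 3 * d - sig * j ∧
      3 * (d : ℝ) - sig * j < 9 * (Z + 1) := by
    refine ⟨⌊(3 * (d : ℝ) - sig * j) / 9⌋₊, ?_, ?_⟩
    · have := Nat.floor_le (show 0 ≤ (3 * (d : ℝ) - sig * j) / 9 by linarith)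
      linarith
    · have := Nat.lt_floor_add_one ((3 * (d : ℝ) - sig * j) / 9)
      linarith
  have hEY : E ≤ Y := by
    have h : (E : ℝ) < Y + 1 := by linarith
    have h' : E < Y + 1 := by exact_mod_cast h
    omega
  have hYZ : Y ≤ Z := by
    have h : (Y : ℝ) < Z + 1 := by linarith
    have h' : Y < Z + 1 := by exact_mod_cast h
    omega
  have hZd : Z ≤ d / 3 := by
    have h1 : 9 * (Z : ℝ) ≤ 3 * d := by linarith
    have h2 : 9 * Z ≤ 3 * d := by exact_mod_cast h1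
    omega
  have hBE : k * (j + 1) ≤ Y := hjE.trans hEY
  have hkj : k * j ≤ k * (j + 1) := Nat.mul_le_mul_left k (by omega)
  obtain ⟨M, hM⟩ : ∃ M, Y + 1 = k * (j + 1) + M := Nat.exists_eq_add_of_le (by omega)
  obtain ⟨G, hG⟩ : ∃ G, Z + 1 = Y + 1 + G := Nat.exists_eq_add_of_le (by omega)
  obtain ⟨W, hW⟩ : ∃ W, Y + 1 = k * j + W := Nat.exists_eq_add_of_le (by omega)
  have hP0 := Pc_trunc (beta := beta) (E := E) hlam hZd (show k * j ≤ Z + 1 by omega)
    (hEY.trans hYZ) (fun y _ hy => by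
      rcases le_total y E with h | h
      · rw [L1_lo h]
        have : (y : ℝ) ≤ E := by exact_mod_cast h
        linarith
      · rw [L1_hi h]
        have : (y : ℝ) ≤ Z := by exact_mod_cast hy
        linarith) hZ2
  have hP1 := Pc_trunc (beta := beta) (E := E) (j := j + 1) hlam (hYZ.trans hZd)
    (show k * (j + 1) ≤ Y + 1 by omega)
    hEY (fun y _ hy => by
      push_cast
      rcases le_total y E with h | h
      · rw [L1_lo h]
        have : (y : ℝ) ≤ E := by exact_mod_cast h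
        linarith
      · rw [L1_hi h]
        have : (y : ℝ) ≤ Y := by exact_mod_cast hy
        linarith) (by push_cast; exact hY2)
  -- splitting of Pc j
  have hsplit : (Pc beta lam (L1 d E) (d / 3) k v j : ℝ) - Pc beta lam (L1 d E) (d / 3) k v (j + 1)
      = ∑ y ∈ Ico (k * j) (k * (j + 1)), ((hh beta lam v k d E j y : ℤ) : ℝ)
        + ∑ y ∈ Ico (k * (j + 1)) (k * (j + 1) + M), (((hh beta lam v k d E j y : ℤ) : ℝ)
          - ((hh beta lam v k d E (j + 1) y : ℤ) : ℝ))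
        + ∑ y ∈ Ico (Y + 1) (Y + 1 + G), ((hh beta lam v k d E j y : ℤ) : ℝ) := by
    rw [hP0, hP1, sum_sub_distrib, ← hG, ← hM,
      ← sum_Ico_consecutive _ hkj (show k * (j + 1) ≤ Z + 1 by omega),
      ← sum_Ico_consecutive _ (show k * (j + 1) ≤ Y + 1 by omega) (show Y + 1 ≤ Z + 1 by omega)]
    ring
  -- noise
  have hn : ∀ (a K : ℕ), K ≤ N0 →
      |∑ i ∈ range K, Int.fract (beta + lam * ((a + i : ℕ) : ℝ)) - K / 2| ≤ η := by
    intro a K hK
    have h1 := hnoise (beta + lam * a) K hK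
    have h2 : ∑ i ∈ range K, (Int.fract (beta + lam * a + lam * i) - 1 / 2)
        = ∑ i ∈ range K, Int.fract (beta + lam * ((a + i : ℕ) : ℝ)) - K / 2 := by
      rw [sum_sub_distrib, sum_const, card_range, nsmul_eq_mul]
      congr 1
      · apply sum_congr rfl
        intro i _
        congr 1
        push_cast
        ring
      · ring
    rwa [h2] at h1
  have hGr : (Z : ℝ) = Y + G := by
    have : Z = Y + G := by omega
    exact_mod_cast this
  have hMr : (M : ℝ) = Y + 1 - k * (j + 1) := by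
    have h5 : ((Y + 1 : ℕ) : ℝ) = ((k * (j + 1) + M : ℕ) : ℝ) := by rw [hM]
    push_cast at h5
    linarith
  have hGN : G ≤ N0 := by
    have h1 : (G : ℝ) ≤ N0 := by linarith
    exact_mod_cast h1
  have hn1 := abs_le.mp (hn (k * j) k hN)
  have hn2 := abs_le.mp (hn M k hN)
  have hn3 := abs_le.mp (hn (Y + 1) G hGN)
  have hn4 := abs_le.mp (hn W G hGN)
  rw [hsplit, S1 hlam hjE, S2 hlam, S3 hlam hEY hW]
  -- the main identity
  obtain ⟨D0, hD0⟩ : ∃ D0 : ℝ, D0 = 3 * d - sig * j - 9 * Z := ⟨_, rfl⟩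
  obtain ⟨D1, hD1⟩ : ∃ D1 : ℝ, D1 = 3 * d - sig * (j + 1) - 9 * Y := ⟨_, rfl⟩
  have hq : ∀ D : ℝ, 0 ≤ D → D < 9 → 0 ≤ D * (9 - D) / 18 ∧ D * (9 - D) / 18 ≤ 9 / 8 := by
    intro D h1 h2
    constructor
    · have : 0 ≤ D * (9 - D) := mul_nonneg h1 (by linarith)
      linarith
    · nlinarith [sq_nonneg (D - 9 / 2)]
  have hq0 := hq D0 (by rw [hD0]; linarith) (by rw [hD0]; linarith)
  have hq1 := hq D1 (by rw [hD1]; linarith) (by rw [hD1]; linarith)
  have hid : k * (3 * (d : ℝ) - E - 8 * (k * j) - sig * j) + (-8) * (k * (k - 1) / 2)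
      + M * sig + (G * (3 * (d : ℝ) - 9 * (Y + 1) - sig * j) + (-9) * (G * (G - 1) / 2))
      - FF sig k d E j = D0 * (9 - D0) / 18 - D1 * (9 - D1) / 18 := by
    rw [hD0, hD1, hGr, hMr]
    unfold FF
    ring
  clear hP0 hP1 hsplit hD0 hD1 hn hnoise hq
  rw [abs_le]
  constructor
  · linarith [hn1.1, hn1.2, hn2.1, hn2.2, hn3.1, hn3.2, hn4.1, hn4.2, hq0.1, hq0.2, hq1.1, hq1.2]
  · linarith [hn1.1, hn1.2, hn2.1, hn2.2, hn3.1, hn3.2, hn4.1, hn4.2, hq0.1, hq0.2, hq1.1, hq1.2]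

/-- no pairs at distance `j` when `3d ≤ (9k + sig) j` -/
theorem tip_zero {beta lam sig : ℝ} {v : ℤ} {k d E j : ℕ}
    (hlam : lam * k = sig - v) (h : 3 * (d : ℝ) ≤ (9 * k + sig) * j) :
    Pc beta lam (L1 d E) (d / 3) k v j = 0 := by
  rw [Pc_eq]
  apply sum_eq_zero
  intro y hy
  rw [mem_Icc] at hy
  apply Int.toNat_of_nonpos
  apply hh_nonpos hlam
  have h1 := L1_le (d := d) (E := E) y
  have h2 : (k : ℝ) * j ≤ y := by exact_mod_cast hy.1
  nlinarith

/-- the pairs at distance `j`: at most `X/9 + 1` rows of at most `X + 1` pairs -/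
theorem tip {beta lam sig : ℝ} {v : ℤ} {k d E j : ℕ} {X : ℝ} (hX : 0 ≤ X)
    (hlam : lam * k = sig - v) (h : 3 * (d : ℝ) ≤ (9 * k + sig) * j + X) :
    (Pc beta lam (L1 d E) (d / 3) k v j : ℝ) ≤ (X / 9 + 1) * (X + 1) := by
  rw [Pc_eq]
  set N : ℕ := ⌊X / 9⌋₊ + 1 with hN
  have hN1 : (N : ℝ) ≤ X / 9 + 1 := by
    rw [hN]
    push_cast
    have := Nat.floor_le (show 0 ≤ X / 9 by positivity)
    linarith
  have hN2 : X < 9 * N := by
    rw [hN]
    push_cast
    have := Nat.lt_floor_add_one (X / 9)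
    linarith
  have hterm : ∀ y ∈ Icc (k * j) (d / 3), y ∉ (Icc (k * j) (d / 3)).filter (fun y => y < k * j + N) →
      (hh beta lam v k d E j y).toNat = 0 := by
    intro y hy hy'
    rw [mem_filter, not_and] at hy'
    have h3 := hy' hy
    push Not at h3
    apply Int.toNat_of_nonpos
    apply hh_nonpos hlam
    have h1 := L1_le (d := d) (E := E) y
    have h2 : (k : ℝ) * j + N ≤ y := by exact_mod_cast h3
    nlinarith
  rw [← sum_subset (filter_subset _ _) hterm, Nat.cast_sum]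
  have hle : ∀ y ∈ (Icc (k * j) (d / 3)).filter (fun y => y < k * j + N),
      (((hh beta lam v k d E j y).toNat : ℕ) : ℝ) ≤ X + 1 := by
    intro y hy
    rw [mem_filter, mem_Icc] at hy
    have h1 := L1_le (d := d) (E := E) y
    have h2 : (k : ℝ) * j ≤ y := by exact_mod_cast hy.1.1
    have h3 := hh_real (beta := beta) hlam d E j y
    have h4 := Int.fract_lt_one (beta + lam * (y : ℝ))
    have h5 := Int.fract_nonneg (beta + lam * ((y : ℝ) - k * j))
    have h6 : ((hh beta lam v k d E j y : ℤ) : ℝ) ≤ X + 1 := by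
      rw [h3]
      nlinarith
    rcases le_total 0 (hh beta lam v k d E j y) with h7 | h7
    · have h8 : (((hh beta lam v k d E j y).toNat : ℕ) : ℤ) = hh beta lam v k d E j y :=
        Int.toNat_of_nonneg h7
      have h9 : (((hh beta lam v k d E j y).toNat : ℕ) : ℝ) = ((hh beta lam v k d E j y : ℤ) : ℝ) := by
        exact_mod_cast h8
      rw [h9]; exact h6
    · rw [Int.toNat_of_nonpos h7]
      push_cast
      linarith
  have hcard : ((Icc (k * j) (d / 3)).filter (fun y => y < k * j + N)).card ≤ N := by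
    calc ((Icc (k * j) (d / 3)).filter (fun y => y < k * j + N)).card
        ≤ (Ico (k * j) (k * j + N)).card := by
          apply card_le_card
          intro y hy
          rw [mem_filter, mem_Icc] at hy
          rw [mem_Ico]
          exact ⟨hy.1.1, hy.2⟩
      _ = N := by rw [Nat.card_Ico]; omega
  calc ∑ y ∈ (Icc (k * j) (d / 3)).filter (fun y => y < k * j + N),
        (((hh beta lam v k d E j y).toNat : ℕ) : ℝ)
      ≤ ((Icc (k * j) (d / 3)).filter (fun y => y < k * j + N)).card • (X + 1) :=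
        sum_le_card_nsmul _ _ _ hle
    _ = (((Icc (k * j) (d / 3)).filter (fun y => y < k * j + N)).card : ℝ) * (X + 1) := by
        rw [nsmul_eq_mul]
    _ ≤ (X / 9 + 1) * (X + 1) := by
        apply mul_le_mul_of_nonneg_right _ (by linarith)
        have : (((Icc (k * j) (d / 3)).filter (fun y => y < k * j + N)).card : ℝ) ≤ N := by
          exact_mod_cast hcard
        linarith

end Pool.Agent.TH663.N13
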