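import Pool.Agent.TH366.RC.Cut
import Pool.Agent.TH603.Sur.Basic

/-! The cut lemma for arbitrary positions, for emptiness and for independence (helper663). -/

set_option autoImplicit false

namespace Pool.Agent.TH663.N13

open Finset Pool.Agent.TH176.Nag Pool.Agent.TH603.Sur

/-- cutting along a real linear form, emptiness -/
theorem Emp_cutZ {ι κ : Type} [Finite ι] [Finite κ] {w : ι → ℕ} {v : κ → ℕ} {S U : Set (ℤ × ℤ)}
    (hS : S.Finite) (hU : U.Finite) (p q : ℝ)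
    (hcut : ∀ m ∈ S, ∀ m' ∈ U, p * m.1 + q * m.2 < p * m'.1 + q * m'.2)
    (h1 : Emp w S) (h2 : Emp v U) : Emp (Sum.elim w v) (S ∪ U) := by
  classical
  obtain ⟨A, hA⟩ := ((hS.union hU).image Prod.fst).bddBelow
  obtain ⟨B, hB⟩ := ((hS.union hU).image Prod.snd).bddBelow
  have hAB : ∀ m ∈ S ∪ U, A ≤ m.1 ∧ B ≤ m.2 := fun m hm =>
    ⟨hA (Set.mem_image_of_mem _ hm), hB (Set.mem_image_of_mem _ hm)⟩
  let φ : ℤ × ℤ → ℤ × ℤ := fun m => (m.1 - A, m.2 - B)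
  have h1' : Emp w (φ '' S) := by
    refine h1.comap 1 0 0 1 A B (by norm_num) ?_
    rintro _ ⟨m, hm, rfl⟩
    simpa [φ] using hm
  have h2' : Emp v (φ '' U) := by
    refine h2.comap 1 0 0 1 A B (by norm_num) ?_
    rintro _ ⟨m, hm, rfl⟩
    simpa [φ] using hm
  have h3 := Pool.Agent.TH366.RC.Emp_cutR (hS.image φ) (hU.image φ)
    (by
      rintro _ ⟨m, hm, rfl⟩
      have := hAB m (Or.inl hm)
      simp only [φ]
      omega)
    (by
      rintro _ ⟨m, hm, rfl⟩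
      have := hAB m (Or.inr hm)
      simp only [φ]
      omega) p q
    (by
      rintro _ ⟨m, hm, rfl⟩ _ ⟨m', hm', rfl⟩
      have := hcut m hm m' hm'
      simp only [φ]
      push_cast
      linarith) h1' h2'
  refine h3.comap 1 0 0 1 (-A) (-B) (by norm_num) ?_
  intro m hm
  rcases hm with hm | hm
  · left
    refine ⟨m, hm, ?_⟩
    simp only [φ]
    ext <;> simp <;> ring
  · right
    refine ⟨m, hm, ?_⟩
    simp only [φ]
    ext <;> simp <;> ring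

/-- cutting along a real linear form, independence -/
theorem Sur_cutZ {ι κ : Type} [Fintype ι] [Fintype κ] {w : ι → ℕ} {v : κ → ℕ} {S U : Set (ℤ × ℤ)}
    (p q : ℝ) (hcut : ∀ m ∈ S, ∀ m' ∈ U, p * m.1 + q * m.2 < p * m'.1 + q * m'.2)
    (h1 : Sur w S) (h2 : Sur v U) : Sur (Sum.elim w v) (S ∪ U) := by
  classical
  obtain ⟨T1, hT1, hc1, hE1⟩ := h1
  obtain ⟨T2, hT2, hc2, hE2⟩ := h2
  have hcut' : ∀ m ∈ (↑T1 : Set (ℤ × ℤ)), ∀ m' ∈ (↑T2 : Set (ℤ × ℤ)),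
      p * m.1 + q * m.2 < p * m'.1 + q * m'.2 := fun m hm m' hm' => hcut m (hT1 hm) m' (hT2 hm')
  have hdisj : Disjoint T1 T2 := by
    rw [disjoint_left]
    intro m hm hm'
    exact lt_irrefl _ (hcut' m hm m hm')
  refine ⟨T1 ∪ T2, ?_, ?_, ?_⟩
  · rw [coe_union]
    exact Set.union_subset_union hT1 hT2
  · rw [card_union_of_disjoint hdisj, hc1, hc2]
    unfold Pool.Agent.TH603.Sur.cond
    rw [Fintype.sum_sum_type]
    rfl
  · rw [coe_union]
    exact Emp_cutZ T1.finite_toSet T2.finite_toSet p q hcut' hE1 hE2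

/-- one set cut into two parts, emptiness -/
theorem Emp_cut_of {ι κ : Type} [Finite ι] [Finite κ] {w : ι → ℕ} {v : κ → ℕ} {S : Set (ℤ × ℤ)}
    (hS : S.Finite) (p q c : ℝ)
    (h1 : Emp w {m ∈ S | p * (m.1 : ℝ) + q * m.2 ≤ c})
    (h2 : Emp v {m ∈ S | c < p * (m.1 : ℝ) + q * m.2}) : Emp (Sum.elim w v) S := by
  have h3 := Emp_cutZ (hS.subset (Set.sep_subset _ _)) (hS.subset (Set.sep_subset _ _)) p q
    (fun m hm m' hm' => lt_of_le_of_lt hm.2 hm'.2) h1 h2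
  refine h3.mono ?_
  intro m hm
  rcases le_or_gt (p * (m.1 : ℝ) + q * m.2) c with h | h
  · exact Or.inl ⟨hm, h⟩
  · exact Or.inr ⟨hm, h⟩

/-- one set cut into two parts, independence -/
theorem Sur_cut_of {ι κ : Type} [Fintype ι] [Fintype κ] {w : ι → ℕ} {v : κ → ℕ} {S : Set (ℤ × ℤ)}
    (p q c : ℝ)
    (h1 : Sur w {m ∈ S | p * (m.1 : ℝ) + q * m.2 ≤ c})
    (h2 : Sur v {m ∈ S | c < p * (m.1 : ℝ) + q * m.2}) : Sur (Sum.elim w v) S := by
  refine (Sur_cutZ p q (fun m hm m' hm' => lt_of_le_of_lt hm.2 hm'.2) h1 h2).mono ?_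
  rintro m (hm | hm)
  · exact hm.1
  · exact hm.1

end Pool.Agent.TH663.N13
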