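import Mathlib
import Pool.Agent.TH663.N13.Row

/-!
The row `j` at the top of the big point: `k*(j+1) ≤ E + 1`, `E ≤ k*(j+1)` (helper663, for helper105).
`rs_low` lower bound, `rs_two` both bounds.
-/

namespace Pool.Agent.TH663.N13

open Finset
open Pool.Agent.TH105.N13 (Pc L1)

theorem S1' {beta lam sig : ℝ} {v : ℤ} {k d E j : ℕ} (hlam : lam * k = sig - v)
    (hjE : k * (j + 1) ≤ E + 1) :
    ∑ y ∈ Ico (k * j) (k * (j + 1)), ((hh beta lam v k d E j y : ℤ) : ℝ)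
      = k * (3 * (d : ℝ) - E - 8 * (k * j) - sig * j) + (-8) * (k * (k - 1) / 2)
        + ∑ i ∈ range k, Int.fract (beta + lam * ((k * j + i : ℕ) : ℝ))
        - ∑ i ∈ range k, Int.fract (beta + lam * (i : ℝ)) := by
  rw [sum_Ico_eq_sum_range, show k * (j + 1) - k * j = k by rw [Nat.mul_add]; omega]
  rw [← sum_lin, ← sum_add_distrib, ← sum_sub_distrib]
  apply sum_congr rfl
  intro i hi
  rw [mem_range] at hi
  rw [hh_real hlam, L1_lo (show k * j + i ≤ E by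
    have : k * (j + 1) = k * j + k := by ring
    omega)]
  have h1 : beta + lam * (((k * j + i : ℕ) : ℝ) - (k : ℝ) * j) = beta + lam * (i : ℝ) := by
    push_cast; ring
  rw [h1]
  push_cast
  ring

theorem S3' {beta lam sig : ℝ} {v : ℤ} {k d E j Y G W : ℕ} (hlam : lam * k = sig - v)
    (hEY : E ≤ Y + 1) (hW : Y + 1 = k * j + W) :
    ∑ y ∈ Ico (Y + 1) (Y + 1 + G), ((hh beta lam v k d E j y : ℤ) : ℝ)
      = G * (3 * (d : ℝ) - 9 * (Y + 1) - sig * j) + (-9) * (G * (G - 1) / 2)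
        + ∑ i ∈ range G, Int.fract (beta + lam * ((Y + 1 + i : ℕ) : ℝ))
        - ∑ i ∈ range G, Int.fract (beta + lam * ((W + i : ℕ) : ℝ)) := by
  rw [sum_Ico_eq_sum_range, Nat.add_sub_cancel_left]
  rw [← sum_lin, ← sum_add_distrib, ← sum_sub_distrib]
  apply sum_congr rfl
  intro i _
  rw [hh_real hlam, L1_hi (show E ≤ Y + 1 + i by omega)]
  have h1 : beta + lam * (((Y + 1 + i : ℕ) : ℝ) - (k : ℝ) * j)
      = beta + lam * ((W + i : ℕ) : ℝ) := by
    have h5 : ((Y + 1 : ℕ) : ℝ) = ((k * j + W : ℕ) : ℝ) := by rw [hW]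
    push_cast at h5 ⊢
    rw [h5]
    ring
  rw [h1]
  push_cast
  ring

/-- truncation of `Pc`, `E ≤ Z + 1` -/
theorem Pc_trunc' {beta lam sig : ℝ} {v : ℤ} {k d E j : ℕ} (hlam : lam * k = sig - v) {Z : ℕ}
    (hZ : Z ≤ d / 3) (hkj : k * j ≤ Z + 1) (hEZ : E ≤ Z + 1)
    (hlo : ∀ y : ℕ, k * j ≤ y → y ≤ Z → sig * j ≤ L1 d E y)
    (hZ2 : 3 * (d : ℝ) - sig * j < 9 * (Z + 1)) :
    (Pc beta lam (L1 d E) (d / 3) k v j : ℝ)
      = ∑ y ∈ Ico (k * j) (Z + 1), ((hh beta lam v k d E j y : ℤ) : ℝ) := by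
  rw [Pc_eq, Icc_eq_Ico', ← sum_Ico_consecutive _ hkj (show Z + 1 ≤ d / 3 + 1 by omega),
    sum_Ico_toNat_zero (f := fun y : ℕ => hh beta lam v k d E j y) (a := Z + 1) (b := d / 3 + 1),
    add_zero]
  · exact sum_Ico_toNat (f := fun y : ℕ => hh beta lam v k d E j y)
      fun y h1 h2 => hh_nonneg hlam (hlo y h1 (by omega))
  · intro y hy _
    apply hh_nonpos hlam
    rw [L1_hi (by omega)]
    have h2 : (Z : ℝ) + 1 ≤ y := by exact_mod_cast hy
    linarith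

/-- lower bound of `Pc` by any partial sum -/
theorem Pc_ge {beta lam : ℝ} {v : ℤ} {k d E j : ℕ} {Z : ℕ}
    (hZ : Z ≤ d / 3) (hkj : k * j ≤ Z + 1) :
    ∑ y ∈ Ico (k * j) (Z + 1), ((hh beta lam v k d E j y : ℤ) : ℝ)
      ≤ (Pc beta lam (L1 d E) (d / 3) k v j : ℝ) := by
  rw [Pc_eq, Icc_eq_Ico', ← sum_Ico_consecutive _ hkj (show Z + 1 ≤ d / 3 + 1 by omega)]
  push_cast
  have h0 : (0 : ℝ) ≤ ∑ y ∈ Ico (Z + 1) (d / 3 + 1), (((hh beta lam v k d E j y).toNat : ℕ) : ℝ) :=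
    sum_nonneg fun y _ => Nat.cast_nonneg _
  have h1 : ∑ y ∈ Ico (k * j) (Z + 1), ((hh beta lam v k d E j y : ℤ) : ℝ)
      ≤ ∑ y ∈ Ico (k * j) (Z + 1), (((hh beta lam v k d E j y).toNat : ℕ) : ℝ) := by
    apply sum_le_sum
    intro y _
    have : hh beta lam v k d E j y ≤ (((hh beta lam v k d E j y).toNat : ℕ) : ℤ) :=
      Int.self_le_toNat _
    exact_mod_cast this
  linarith

/-- the common computation -/
theorem core {beta lam sig : ℝ} {v : ℤ} {k d E j N0 Y Z M G W : ℕ} {η : ℝ}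
    (hlam : lam * k = sig - v) (hjE : k * (j + 1) ≤ E + 1) (hEY : E ≤ Y + 1)
    (hN : k ≤ N0) (hGN : G ≤ N0)
    (hM : Y + 1 = k * (j + 1) + M) (hG : Z + 1 = Y + 1 + G) (hW : Y + 1 = k * j + W)
    (hnoise : ∀ (β : ℝ) (K : ℕ), K ≤ N0 →
      |∑ i ∈ range K, (Int.fract (β + lam * i) - 1 / 2)| ≤ η) :
    |∑ y ∈ Ico (k * j) (Z + 1), ((hh beta lam v k d E j y : ℤ) : ℝ)
      - ∑ y ∈ Ico (k * (j + 1)) (Y + 1), ((hh beta lam v k d E (j + 1) y : ℤ) : ℝ)
      - FF sig k d E j - ((3 * d - sig * j - 9 * Z) * (9 - (3 * d - sig * j - 9 * Z)) / 18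
        - (3 * d - sig * (j + 1) - 9 * Y) * (9 - (3 * d - sig * (j + 1) - 9 * Y)) / 18)|
      ≤ 4 * η := by
  have hkj : k * j ≤ k * (j + 1) := Nat.mul_le_mul_left k (by omega)
  have hsplit : ∑ y ∈ Ico (k * j) (Z + 1), ((hh beta lam v k d E j y : ℤ) : ℝ)
      - ∑ y ∈ Ico (k * (j + 1)) (Y + 1), ((hh beta lam v k d E (j + 1) y : ℤ) : ℝ)
      = ∑ y ∈ Ico (k * j) (k * (j + 1)), ((hh beta lam v k d E j y : ℤ) : ℝ)
        + ∑ y ∈ Ico (k * (j + 1)) (k * (j + 1) + M), (((hh beta lam v k d E j y : ℤ) : ℝ)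
          - ((hh beta lam v k d E (j + 1) y : ℤ) : ℝ))
        + ∑ y ∈ Ico (Y + 1) (Y + 1 + G), ((hh beta lam v k d E j y : ℤ) : ℝ) := by
    rw [sum_sub_distrib, ← hG, ← hM,
      ← sum_Ico_consecutive _ hkj (show k * (j + 1) ≤ Z + 1 by omega),
      ← sum_Ico_consecutive _ (show k * (j + 1) ≤ Y + 1 by omega) (show Y + 1 ≤ Z + 1 by omega)]
    ring
  have hn : ∀ (a K : ℕ), K ≤ N0 →
      |∑ i ∈ range K, Int.fract (beta + lam * ((a + i : ℕ) : ℝ)) - K / 2| ≤ η := by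
    intro a K hK
    have h1 := hnoise (beta + lam * a) K hK
    have h2 : ∑ i ∈ range K, (Int.fract (beta + lam * a + lam * i) - 1 / 2)
        = ∑ i ∈ range K, Int.fract (beta + lam * ((a + i : ℕ) : ℝ)) - K / 2 := by
      rw [sum_sub_distrib, sum_const, card_range, nsmul_eq_mul]
      congr 1
      · apply sum_congr rfl
        intro i _
        congr 1
        push_cast
        ring
      · ring
    rwa [h2] at h1
  have hGr : (Z : ℝ) = Y + G := by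
    have : Z = Y + G := by omega
    exact_mod_cast this
  have hMr : (M : ℝ) = Y + 1 - k * (j + 1) := by
    have h5 : ((Y + 1 : ℕ) : ℝ) = ((k * (j + 1) + M : ℕ) : ℝ) := by rw [hM]
    push_cast at h5
    linarith
  have hn1 := abs_le.mp (hn (k * j) k hN)
  have hn2 := abs_le.mp (hn M k hN)
  have hn3 := abs_le.mp (hn (Y + 1) G hGN)
  have hn4 := abs_le.mp (hn W G hGN)
  rw [hsplit, S1' hlam hjE, S2 hlam, S3' hlam hEY hW]
  have hid : k * (3 * (d : ℝ) - E - 8 * (k * j) - sig * j) + (-8) * (k * (k - 1) / 2)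
      + M * sig + (G * (3 * (d : ℝ) - 9 * (Y + 1) - sig * j) + (-9) * (G * (G - 1) / 2))
      - FF sig k d E j = (3 * d - sig * j - 9 * Z) * (9 - (3 * d - sig * j - 9 * Z)) / 18
        - (3 * d - sig * (j + 1) - 9 * Y) * (9 - (3 * d - sig * (j + 1) - 9 * Y)) / 18 := by
    rw [hGr, hMr]
    unfold FF
    ring
  clear hsplit hn hnoise
  rw [abs_le]
  constructor
  · linarith [hn1.1, hn1.2, hn2.1, hn2.2, hn3.1, hn3.2, hn4.1, hn4.2]
  · linarith [hn1.1, hn1.2, hn2.1, hn2.2, hn3.1, hn3.2, hn4.1, hn4.2]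

/-- `d * (9 - d) / 18 ≤ 9 / 8` for every real `d` -/
theorem quad_le (D : ℝ) : D * (9 - D) / 18 ≤ 9 / 8 := by nlinarith [sq_nonneg (D - 9 / 2)]

theorem quad_nonneg {D : ℝ} (h0 : 0 ≤ D) (h9 : D < 9) : 0 ≤ D * (9 - D) / 18 := by
  have : 0 ≤ D * (9 - D) := mul_nonneg h0 (by linarith)
  linarith

/-- **Lower bound of the row at the top of the big point.** -/
theorem rs_low {beta lam sig : ℝ} {v : ℤ} {k d E j N0 : ℕ} {η : ℝ}
    (hlam : lam * k = sig - v) (hsig : 0 ≤ sig) (hk : 0 < k)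
    (hjE : k * (j + 1) ≤ E + 1) (hjE' : E ≤ k * (j + 1))
    (h3 : 9 * (k : ℝ) * (j + 1) + sig * j ≤ 3 * d + 9)
    (hN : k ≤ N0) (hN' : sig / 9 + 1 ≤ N0)
    (hnoise : ∀ (β : ℝ) (K : ℕ), K ≤ N0 →
      |∑ i ∈ range K, (Int.fract (β + lam * i) - 1 / 2)| ≤ η) :
    FF sig k d E j - 9 / 8 - 4 * η ≤
      (Pc beta lam (L1 d E) (d / 3) k v j : ℝ) - Pc beta lam (L1 d E) (d / 3) k v (j + 1) := by
  have hj0 : (0 : ℝ) ≤ j := Nat.cast_nonneg j
  have hsj : 0 ≤ sig * j := mul_nonneg hsig hj0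
  have hsj1 : sig * (j + 1) = sig * j + sig := by ring
  have hk1 : 1 ≤ k * (j + 1) := Nat.mul_pos hk (by omega)
  obtain ⟨B, hB⟩ : ∃ B : ℕ, k * (j + 1) = B + 1 := ⟨k * (j + 1) - 1, by omega⟩
  have hBr : (k : ℝ) * (j + 1) = B + 1 := by exact_mod_cast hB
  have hkj : k * j ≤ k * (j + 1) := Nat.mul_le_mul_left k (by omega)
  have hpos0 : 0 ≤ 3 * (d : ℝ) - sig * j := by
    have : (0 : ℝ) ≤ B := Nat.cast_nonneg B
    nlinarith
  obtain ⟨Z, hZ1, hZ2⟩ : ∃ Z : ℕ, 9 * (Z : ℝ) ≤ 3 * d - sig * j ∧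
      3 * (d : ℝ) - sig * j < 9 * (Z + 1) := by
    refine ⟨⌊(3 * (d : ℝ) - sig * j) / 9⌋₊, ?_, ?_⟩
    · have := Nat.floor_le (show 0 ≤ (3 * (d : ℝ) - sig * j) / 9 by positivity)
      linarith
    · have := Nat.lt_floor_add_one ((3 * (d : ℝ) - sig * j) / 9)
      linarith
  have hZd : Z ≤ d / 3 := by
    have h1 : 9 * (Z : ℝ) ≤ 3 * d := by linarith
    have h2 : 9 * Z ≤ 3 * d := by exact_mod_cast h1
    omega
  have hBZ : B ≤ Z := by
    have h : (B : ℝ) < Z + 1 := by nlinarith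
    have h' : B < Z + 1 := by exact_mod_cast h
    omega
  -- the height Y
  obtain ⟨Y, hYB, hYZ, hGY, hP1⟩ : ∃ Y : ℕ, B ≤ Y ∧ Y ≤ Z ∧
      3 * (d : ℝ) - sig * (j + 1) < 9 * (Y + 1) ∧
      (Pc beta lam (L1 d E) (d / 3) k v (j + 1) : ℝ)
        = ∑ y ∈ Ico (k * (j + 1)) (Y + 1), ((hh beta lam v k d E (j + 1) y : ℤ) : ℝ) := by
    by_cases hc : 3 * (d : ℝ) - sig * (j + 1) < 9 * (B + 1)
    · refine ⟨B, le_rfl, hBZ, hc, ?_⟩
      have h0 := Pc_trunc' (beta := beta) (E := E) (j := j + 1) (Z := B) hlam (hBZ.trans hZd)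
        (by omega) (by omega) (fun y h1 h2 => by omega) (by push_cast; exact hc)
      exact h0
    · push Not at hc
      have hB0 : (0 : ℝ) ≤ B := Nat.cast_nonneg B
      refine ⟨⌊(3 * (d : ℝ) - sig * (j + 1)) / 9⌋₊, ?_, ?_, ?_, ?_⟩
      · apply Nat.le_floor
        linarith
      · have h1 := Nat.floor_le (show 0 ≤ (3 * (d : ℝ) - sig * (j + 1)) / 9 by
          apply div_nonneg _ (by norm_num); linarith)
        have h2 : ((⌊(3 * (d : ℝ) - sig * (j + 1)) / 9⌋₊ : ℕ) : ℝ) < Z + 1 := by linarith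
        have h3 : ⌊(3 * (d : ℝ) - sig * (j + 1)) / 9⌋₊ < Z + 1 := by exact_mod_cast h2
        omega
      · have := Nat.lt_floor_add_one ((3 * (d : ℝ) - sig * (j + 1)) / 9)
        linarith
      · set Y := ⌊(3 * (d : ℝ) - sig * (j + 1)) / 9⌋₊ with hY
        have h1 : 9 * (Y : ℝ) ≤ 3 * d - sig * (j + 1) := by
          have := Nat.floor_le (show 0 ≤ (3 * (d : ℝ) - sig * (j + 1)) / 9 by
            apply div_nonneg _ (by norm_num); linarith)
          linarith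
        have h2 : 3 * (d : ℝ) - sig * (j + 1) < 9 * (Y + 1) := by
          have := Nat.lt_floor_add_one ((3 * (d : ℝ) - sig * (j + 1)) / 9)
          linarith
        have h3 : B ≤ Y := by
          rw [hY]
          apply Nat.le_floor
          linarith
        have h4 : Y ≤ d / 3 := by
          have h5 : 9 * (Y : ℝ) ≤ 3 * d := by linarith
          have h6 : 9 * Y ≤ 3 * d := by exact_mod_cast h5
          omega
        exact Pc_trunc' (beta := beta) (E := E) (j := j + 1) (Z := Y) hlam h4 (by omega) (by omega)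
          (fun y hy1 hy2 => by
            rw [L1_hi (show E ≤ y by omega)]
            have : (y : ℝ) ≤ Y := by exact_mod_cast hy2
            push_cast
            linarith) (by push_cast; exact h2)
  obtain ⟨M, hM⟩ : ∃ M, Y + 1 = k * (j + 1) + M := Nat.exists_eq_add_of_le (by omega)
  obtain ⟨G, hG⟩ : ∃ G, Z + 1 = Y + 1 + G := Nat.exists_eq_add_of_le (by omega)
  obtain ⟨W, hW⟩ : ∃ W, Y + 1 = k * j + W := Nat.exists_eq_add_of_le (by omega)
  have hGN : G ≤ N0 := by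
    have hGr : (Z : ℝ) = Y + G := by
      have : Z = Y + G := by omega
      exact_mod_cast this
    have h1 : (G : ℝ) ≤ N0 := by linarith
    exact_mod_cast h1
  have hc := abs_le.mp (core (beta := beta) (d := d) hlam hjE (show E ≤ Y + 1 by omega) hN hGN
    hM hG hW hnoise)
  have hP0 := Pc_ge (beta := beta) (lam := lam) (v := v) (E := E) hZd
    (show k * j ≤ Z + 1 by omega)
  have q0 := quad_nonneg (D := 3 * (d : ℝ) - sig * j - 9 * Z) (by linarith) (by linarith)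
  have q1 := quad_le (3 * (d : ℝ) - sig * (j + 1) - 9 * Y)
  rw [hP1]
  linarith [hc.1, hc.2]

/-- **Both bounds of the row at the top of the big point.** -/
theorem rs_two {beta lam sig : ℝ} {v : ℤ} {k d E j N0 : ℕ} {η : ℝ}
    (hlam : lam * k = sig - v) (hsig : 0 ≤ sig) (hk : 0 < k)
    (hjE : k * (j + 1) ≤ E + 1) (hjE' : E ≤ k * (j + 1))
    (hE : 9 * (E : ℝ) + sig * j ≤ 3 * d)
    (h3 : (9 * (k : ℝ) + sig) * (j + 1) ≤ 3 * d + 9)
    (hN : k ≤ N0) (hN' : sig / 9 + 1 ≤ N0)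
    (hnoise : ∀ (β : ℝ) (K : ℕ), K ≤ N0 →
      |∑ i ∈ range K, (Int.fract (β + lam * i) - 1 / 2)| ≤ η) :
    |(Pc beta lam (L1 d E) (d / 3) k v j : ℝ) - Pc beta lam (L1 d E) (d / 3) k v (j + 1)
      - FF sig k d E j| ≤ 9 / 8 + 4 * η := by
  have hj0 : (0 : ℝ) ≤ j := Nat.cast_nonneg j
  have hE0 : (0 : ℝ) ≤ E := Nat.cast_nonneg E
  have hsj : 0 ≤ sig * j := mul_nonneg hsig hj0
  have hsj1 : sig * (j + 1) = sig * j + sig := by ring
  have hk1 : 1 ≤ k * (j + 1) := Nat.mul_pos hk (by omega)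
  obtain ⟨B, hB⟩ : ∃ B : ℕ, k * (j + 1) = B + 1 := ⟨k * (j + 1) - 1, by omega⟩
  have hBr : (k : ℝ) * (j + 1) = B + 1 := by exact_mod_cast hB
  have hB0 : (0 : ℝ) ≤ B := Nat.cast_nonneg B
  have h3' : 9 * ((B : ℝ) + 1) + sig * (j + 1) ≤ 3 * d + 9 := by
    have : (9 * (k : ℝ) + sig) * (j + 1) = 9 * (k * (j + 1)) + sig * (j + 1) := by ring
    rw [this, hBr] at h3
    exact h3
  have hkj : k * j ≤ k * (j + 1) := Nat.mul_le_mul_left k (by omega)
  obtain ⟨Y, hY1, hY2⟩ : ∃ Y : ℕ, 9 * (Y : ℝ) ≤ 3 * d - sig * (j + 1) ∧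
      3 * (d : ℝ) - sig * (j + 1) < 9 * (Y + 1) := by
    refine ⟨⌊(3 * (d : ℝ) - sig * (j + 1)) / 9⌋₊, ?_, ?_⟩
    · have := Nat.floor_le (show 0 ≤ (3 * (d : ℝ) - sig * (j + 1)) / 9 by
        apply div_nonneg _ (by norm_num); linarith)
      linarith
    · have := Nat.lt_floor_add_one ((3 * (d : ℝ) - sig * (j + 1)) / 9)
      linarith
  obtain ⟨Z, hZ1, hZ2⟩ : ∃ Z : ℕ, 9 * (Z : ℝ) ≤ 3 * d - sig * j ∧
      3 * (d : ℝ) - sig * j < 9 * (Z + 1) := by
    refine ⟨⌊(3 * (d : ℝ) - sig * j) / 9⌋₊, ?_, ?_⟩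
    · have := Nat.floor_le (show 0 ≤ (3 * (d : ℝ) - sig * j) / 9 by
        apply div_nonneg _ (by norm_num); linarith)
      linarith
    · have := Nat.lt_floor_add_one ((3 * (d : ℝ) - sig * j) / 9)
      linarith
  have hYB : B ≤ Y := by
    have h : (B : ℝ) < Y + 1 := by linarith
    have h' : B < Y + 1 := by exact_mod_cast h
    omega
  have hYZ : Y ≤ Z := by
    have h : (Y : ℝ) < Z + 1 := by linarith
    have h' : Y < Z + 1 := by exact_mod_cast h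
    omega
  have hZd : Z ≤ d / 3 := by
    have h1 : 9 * (Z : ℝ) ≤ 3 * d := by linarith
    have h2 : 9 * Z ≤ 3 * d := by exact_mod_cast h1
    omega
  have hP1 := Pc_trunc' (beta := beta) (E := E) (j := j + 1) (Z := Y) hlam (hYZ.trans hZd)
    (by omega) (by omega)
    (fun y hy1 hy2 => by
      rw [L1_hi (show E ≤ y by omega)]
      have : (y : ℝ) ≤ Y := by exact_mod_cast hy2
      push_cast
      linarith) (by push_cast; exact hY2)
  have hP0 := Pc_trunc' (beta := beta) (E := E) (j := j) (Z := Z) hlam hZd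
    (by omega) (by omega)
    (fun y hy1 hy2 => by
      rcases le_total y E with h | h
      · rw [L1_lo h]
        have : (y : ℝ) ≤ E := by exact_mod_cast h
        linarith
      · rw [L1_hi h]
        have : (y : ℝ) ≤ Z := by exact_mod_cast hy2
        linarith) hZ2
  obtain ⟨M, hM⟩ : ∃ M, Y + 1 = k * (j + 1) + M := Nat.exists_eq_add_of_le (by omega)
  obtain ⟨G, hG⟩ : ∃ G, Z + 1 = Y + 1 + G := Nat.exists_eq_add_of_le (by omega)
  obtain ⟨W, hW⟩ : ∃ W, Y + 1 = k * j + W := Nat.exists_eq_add_of_le (by omega)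
  have hGN : G ≤ N0 := by
    have hGr : (Z : ℝ) = Y + G := by
      have : Z = Y + G := by omega
      exact_mod_cast this
    have h1 : (G : ℝ) ≤ N0 := by linarith
    exact_mod_cast h1
  have hc := abs_le.mp (core (beta := beta) (d := d) hlam hjE (show E ≤ Y + 1 by omega) hN hGN
    hM hG hW hnoise)
  have q0 := quad_nonneg (D := 3 * (d : ℝ) - sig * j - 9 * Z) (by linarith) (by linarith)
  have q1 := quad_le (3 * (d : ℝ) - sig * (j + 1) - 9 * Y)
  have q2 := quad_nonneg (D := 3 * (d : ℝ) - sig * (j + 1) - 9 * Y) (by linarith) (by linarith)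
  have q3 := quad_le (3 * (d : ℝ) - sig * j - 9 * Z)
  rw [hP0, hP1, abs_le]
  constructor <;> linarith [hc.1, hc.2]

end Pool.Agent.TH663.N13
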